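import Pool.Agent.Lib.HA.Ell

/-!
All elliptic curves over a global function field of characteristic different from `2` and `3`.

`k` is a finite field, `6 ≠ 0` in `k`, and `K` any finitely generated extension of `k` of
transcendence degree one. The curves `E : y ^ 2 = x ^ 3 + A x + B`, `A`, `B ∈ K` with separable right
hand side, are all the elliptic curves over `K`; the curves of `(A, B)` and `(A', B')` are isomorphic
if and only if `A' = u ^ 4 A`, `B' = u ^ 6 B` for some `u ∈ Kˣ`.

For a place `v` let `m_v` be the least integer such that `ord_v (A) ≥ - 2 m_v` and
`ord_v (B) ≥ - 3 m_v`. The height of `E` is `h = ∑ deg(v) m_v`; it is the height of the point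
`(A : B)` of the weighted projective line, and is invariant under quadratic twists (so it depends
only on the `j`-invariant if `A B ≠ 0`). The twist degree `t` is the sum of the degrees of the `v`
for which `m_v` is odd; these are the `v` at which `E` has reduction of type `I_n ^ *`, `II ^ *`,
`III ^ *` or `IV ^ *`, and the degree of the minimal discriminant is `6 (h + t)`. The isomorphism
classes of the `E` with `h ≤ M` and `t ≤ N` are finitely many.

Let `V = E(K ^ s)[2 ^ ∞]` and `W = V ⊗ Z[ε] / ε ^ 2` with the action of `Gal(K ^ s / K)` twisted by
`s ↦ 1 + deg (s) ε`, where `s` acts as the `deg (s)`-th power of the Frobenius automorphism on the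
constants. If `H` is the first cohomology group of the sheaf on the curve over `k ^ s` which is
attached to the rational `2`-adic representation of `E`, and `F` is the Frobenius on `H`, then the
Selmer group of `V` has corank `dim ker (F - 1)` and that of `W` has corank `dim ker (F - 1) ^ 2`,
while the order of vanishing of `L (E, s)` at `s = 1` is the multiplicity of the eigenvalue `1` of
`F`. When the two coranks are equal, the order of vanishing is the corank of the Selmer group of `V`.

The theorem, for `N`, and then `M`, going to infinity: for `100` per cent of all `E` the `j`-invariant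
is transcendental over `k` and both coranks are equal to one `r ≤ 1`; one half of all `E` has corank
`0`, rank `0` and a finite `2`-power torsion of its Tate-Shafarevich group, and one half has
corank `1`.

All Selmer groups are taken over the separable closure of `K`, with the local conditions at the
decomposition groups of all places; as `Gal(K_v ^ s / K_v)` is the decomposition group of a place
of `K ^ s` above `v`, and a class of `H ^ 1 (K, E)` is trivial over the henselization at `v` if and
only if it is trivial over the completion at `v`, these are the usual local conditions.
-/

set_option autoImplicit false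

open Polynomial Pool.Agent.HA Pool.Agent.Sm.L

namespace Pool.Agent.Results.MP_48b749_nt.AllEllipticCurves

/-- For `100` per cent of all elliptic curves over `K` the Selmer groups of `V` and of
`W = V ⊗ Z[ε] / ε ^ 2` have the same corank `r ≤ 1`, for one half it is `0` and for one half `1`. -/
theorem result (k K : Type) [Field k] [Finite k] [Field K] [Algebra k K]
    [Algebra.EssFiniteType k K] (hK : Algebra.trdeg k K = 1) (h6 : (6 : k) ≠ 0) :
    (∀ M N, (Fam k K 1 M N fun _ => True).Finite) ∧
    ∀ ε : ℝ, 0 < ε → ∃ M₀ : ℕ, ∀ M ≥ M₀, ∃ j N₀ : ℕ, ∀ N ≥ N₀,
      0 < (Fam k K 1 M N fun _ => True).ncard ∧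
      ((Fam k K 1 M N fun a => ¬ GoodEll k a j).ncard : ℝ) ≤
        ε * (Fam k K 1 M N fun _ => True).ncard ∧
      |((Fam k K 1 M N fun a => Rank0C k (ell a)).ncard : ℝ) -
        (Fam k K 1 M N fun _ => True).ncard / 2| ≤
        ε * (Fam k K 1 M N fun _ => True).ncard ∧
      |((Fam k K 1 M N fun a => Corank1C k (ell a)).ncard : ℝ) -
        (Fam k K 1 M N fun _ => True).ncard / 2| ≤
        ε * (Fam k K 1 M N fun _ => True).ncard :=
  ell_main k K hK h6

end Pool.Agent.Results.MP_48b749_nt.AllEllipticCurves
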