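import Pool.Agent.Lib.SmL.Fnl.Done

/-!
Ranks, Selmer groups and Tate-Shafarevich groups of an elliptic curve over `100` per cent of the
cyclic extensions of odd prime degree `l` of a global function field.

`K` is a finitely generated extension of transcendence degree `1` of a finite field `k` which is
algebraically closed in `K`, the characteristic is at least `5`, `l` is an odd prime which divides
`#k - 1`, and `E : y ^ 2 = x ^ 3 + A x + B` is an elliptic curve over `K` such that some element of the
Galois group acts as `-1` on `E[l]` and every endomorphism of `E[l]` is a combination of elements of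
the Galois group; this holds if the image of the Galois group in the automorphisms of `E[l]` contains
`SL (E[l])`. The cyclic extensions `L` of degree `l` of `K` are ordered by the sum of the degrees of
the ramified places (all ramification is tame, so the degree of the discriminant is `l - 1` times
this sum).

The theorem: for all `L` outside a set of density `0`, the rank of `E (L)` is the rank of `E (K)`, the
`l ^ i`-Selmer group over `L` is, up to a factor which is bounded for fixed `L`, as large as the
`l ^ i`-Selmer group over `K`, and the `l`-primary part of the Tate-Shafarevich group of `E / L` is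
finite if and only if this holds over `K`.

All Selmer groups are taken over the separable closure `Ω` of `K`, with the local conditions at the
decomposition groups of all places; as `Gal (K_v ^ s / K_v)` is the decomposition group of a place
of `Ω` above `v`, and a class of `H ^ 1 (K, E)` is trivial over the henselization at `v` if and only if
it is trivial over the completion at `v`, these are the usual local conditions.
-/

set_option autoImplicit false

open Pool.Agent.SmL.Fnl

namespace Pool.Agent.Results.MP_48b749_nt.CyclicExtensions

/-- For `100` per cent of the cyclic extensions `L` of degree `l` of `K` the rank of the elliptic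
curve, the Selmer groups up to a constant and the finiteness of the Tate-Shafarevich group are the
same over `L` and over `K`. -/
theorem result (k K Ω : Type) [Field k] [Finite k] [Field K] [Algebra k K]
    [Algebra.EssFiniteType k K] (hK : Algebra.trdeg k K = 1)
    (hk : ∀ x : K, IsIntegral k x → ∃ c : k, algebraMap k K c = x) (h6 : (6 : k) ≠ 0)
    [Field Ω] [Algebra K Ω] [IsSepClosure K Ω] [Algebra k Ω] [IsScalarTower k K Ω]
    (l : ℕ) (hl : l.Prime) (hl2 : l ≠ 2) (hlk : l ∣ Nat.card k - 1) (A B : K)
    (hAB : 4 * A ^ 3 + 27 * B ^ 2 ≠ 0) (hE : BigE Ω l (crvAB A B)) :
    (∀ n, (Cyc k Ω l n : Set (IntermediateField K Ω)).Finite) ∧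
    (∃ c : ℝ, 0 < c ∧ ∃ n₀ : ℕ, ∀ n ≥ n₀, c * (n : ℝ) ^ (l - 2) * (Nat.card k : ℝ) ^ n ≤
      (Cyc k Ω l n : Set (IntermediateField K Ω)).ncard) ∧
    ∀ ε : ℝ, 0 < ε → ∃ n₀ : ℕ, ∀ n ≥ n₀,
      ({L ∈ (Cyc k Ω l n : Set (IntermediateField K Ω)) | ¬ EcGood k l (crvAB A B) L}.ncard : ℝ) ≤
        ε * (Cyc k Ω l n : Set (IntermediateField K Ω)).ncard :=
  fin_E k K Ω hK hk h6 l hl hl2 hlk A B hAB hE

end Pool.Agent.Results.MP_48b749_nt.CyclicExtensions
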