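import Pool.Agent.Lib.Sm.L.DoneH

/-!
The order of vanishing of the `L`-function for the quadratic twists of an elliptic curve with full
rational `2`-torsion over `K = k (t)`, `k` finite.

`E_D : y ^ 2 = x (x - D α) (x - D β)` is the quadratic twist by `D` of `y ^ 2 = x (x - α) (x - β)`.
`D` runs over the squarefree polynomials of degree `n` and `n` tends to infinity. Let
`V = E_D (K ^ s) [2 ^ ∞]` and let `W = V ⊗ Z[ε] / ε ^ 2` with the action of `Gal(K ^ s / K)` twisted by
`s ↦ 1 + deg (s) ε`, where `s` acts as the `deg (s)`-th power of the Frobenius automorphism on the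
constants. If `H` is the first cohomology group of the sheaf on the projective line over `k ^ s` which
is attached to the rational `2`-adic representation of `E_D`, and `F` is the Frobenius on `H`, then
the Selmer group of `V` has corank `dim ker (F - 1)` and that of `W` has corank
`dim ker (F - 1) ^ 2`, while the order of vanishing of `L (E_D, s)` at `s = 1` is the multiplicity
of the eigenvalue `1` of `F`. When the two coranks are equal, the order of vanishing is the corank of
the Selmer group of `V`.

The theorem: for all `D` outside a set of density `0` both coranks are equal to one `r ≤ 1`.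
Among the `D` for which `E_D` has a finite place of multiplicative reduction (a set of positive
lower density) one half of the `E_D` has corank `0`, rank `0` and a finite `2`-power torsion of its
Tate-Shafarevich group, and one half has corank `1`.

All Selmer groups are taken over the separable closure of `k (t)`, with the local conditions at the
decomposition groups of all places; as `Gal(K_v ^ s / K_v)` is the decomposition group of a place
of `K ^ s` above `v`, and a class of `H ^ 1 (K, E)` is trivial over the henselization at `v` if and
only if it is trivial over the completion at `v`, these are the usual local conditions.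
-/

set_option autoImplicit false

open Polynomial Pool.Agent.Sm.L

namespace Pool.Agent.Results.MP_48b749_nt.OrdersOfVanishingOfTwists

/-- For `100` per cent of the quadratic twists `E_D` the Selmer groups of `V` and of
`W = V ⊗ Z[ε] / ε ^ 2` have the same corank `r ≤ 1`, and the distribution of `r`. -/
theorem result (k : Type) [Field k] [Finite k] (h2 : (2 : k) ≠ 0) (α β : k[X])
    (h4 : No4 α β) :
    ∃ δ : ℝ, 0 < δ ∧ ∀ ε : ℝ, 0 < ε → ∃ j n₀ : ℕ, ∀ n ≥ n₀,
      (Nat.card {D : k[X] // (Squarefree D ∧ D.natDegree = n) ∧
        ¬ (Good α β j D ∧ Ord α β D)} : ℝ) ≤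
        ε * (Nat.card {D : k[X] // Squarefree D ∧ D.natDegree = n} : ℝ) ∧
      δ * (Nat.card {D : k[X] // Squarefree D ∧ D.natDegree = n} : ℝ) ≤
        (Nat.card {D : k[X] // Squarefree D ∧ D.natDegree = n ∧ MultD α β D} : ℝ) ∧
      |(Nat.card {D : k[X] // (Squarefree D ∧ D.natDegree = n ∧ MultD α β D) ∧
          Rank0 α β D} : ℝ) -
        (Nat.card {D : k[X] // Squarefree D ∧ D.natDegree = n ∧ MultD α β D} : ℝ) / 2| ≤
        ε * (Nat.card {D : k[X] // Squarefree D ∧ D.natDegree = n ∧ MultD α β D} : ℝ) ∧
      |(Nat.card {D : k[X] // (Squarefree D ∧ D.natDegree = n ∧ MultD α β D) ∧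
          Corank1 α β D} : ℝ) -
        (Nat.card {D : k[X] // Squarefree D ∧ D.natDegree = n ∧ MultD α β D} : ℝ) / 2| ≤
        ε * (Nat.card {D : k[X] // Squarefree D ∧ D.natDegree = n ∧ MultD α β D} : ℝ) :=
  heights_done h2 α β h4

end Pool.Agent.Results.MP_48b749_nt.OrdersOfVanishingOfTwists
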