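import Pool.Agent.Lib.SmNH.Fin.Done2

/-!
The order of vanishing of the `L`-function and the Selmer groups for the quadratic twists of an
elliptic curve over any global function field `K` of characteristic different from `2` and `3`.

`E_d : y ^ 2 = x ^ 3 + A d ^ 2 x + B d ^ 3` is the quadratic twist by `d ∈ Kˣ / Kˣ²` of
`E : y ^ 2 = x ^ 3 + A x + B`; the Galois group of `x ^ 3 + A x + B` is the symmetric group and its
discriminant is not a constant times a square. The twists are ordered by the degree of the divisor of
the places at which `d` has odd order, which are the places ramified in `K (√ d)`. Let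
`V = E_d (K ^ s) [2 ^ ∞]` and let `W = V ⊗ Z[ε] / ε ^ 2` with the action of `Gal(K ^ s / K)` twisted by
`s ↦ 1 + deg (s) ε`, where `s` acts as the `deg (s)`-th power of the Frobenius automorphism on the
constants. If `H` is the first cohomology group of the sheaf on the curve over `k ^ s` which is
attached to the rational `2`-adic representation of `E_d`, and `F` is the Frobenius on `H`, then the
Selmer group of `V` has corank `dim ker (F - 1)` and that of `W` has corank `dim ker (F - 1) ^ 2`,
while the order of vanishing of `L (E_d, s)` at `s = 1` is the multiplicity of the eigenvalue `1` of
`F`. When the two coranks are equal, the order of vanishing is the corank of the Selmer group of `V`.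

The theorem: for all `d` outside a set of density `0` both coranks are equal to one `r ≤ 1`. Let `M` be
a finite nonempty set of places at which the curve `y ^ 2 = x ^ 3 + A x + B` has a node. Among the `d`
which are unramified at some place of `M` (a set of positive lower density) one half of the `E_d` has
corank `0`, rank `0` and a finite `2`-power torsion of its Tate-Shafarevich group, and one half has
corank `1`.

All Selmer groups are taken over the separable closure of `K`, with the local conditions at the
decomposition groups of all places; as `Gal(K_v ^ s / K_v)` is the decomposition group of a place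
of `K ^ s` above `v`, and a class of `H ^ 1 (K, E)` is trivial over the henselization at `v` if and
only if it is trivial over the completion at `v`, these are the usual local conditions.
-/

set_option autoImplicit false

open Polynomial Pool.Agent.Sm.L Pool.Agent.SmN.Stm
open Pool.Agent.BSDFF (Place)

namespace Pool.Agent.Results.MP_48b749_nt.TwistsOverGlobalFields

/-- For `100` per cent of the quadratic twists `E_d` the Selmer groups of `V` and of
`W = V ⊗ Z[ε] / ε ^ 2` have the same corank `r ≤ 1`, and the distribution of `r`. -/
theorem result (k K : Type) [Field k] [Finite k] [Field K] [Algebra k K]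
    [Algebra.EssFiniteType k K] (hK : Algebra.trdeg k K = 1) (h6 : (6 : k) ≠ 0) (A B : K)
    (hG : BigGal k (X ^ 3 + C A * X + C B : K[X]) 1) :
    (∀ N, (Twists k N fun _ : K => True).Finite) ∧
    AlmostAll k (fun j (d : K) => GoodC k (crv A B d) j ∧ OrdC k (crv A B d)) ∧
    ∀ M : Finset (Place k K), M.Nonempty →
      (∀ v ∈ M, Node v (X ^ 3 + C A * X + C B : K[X])) →
      Halves k (fun d : K => ∃ v ∈ M, EvenAt v d) (fun d => Rank0C k (crv A B d))
        (fun d => Corank1C k (crv A B d)) :=
  Pool.Agent.SmNH.Fnl.fin_E k K hK h6 A B hG

end Pool.Agent.Results.MP_48b749_nt.TwistsOverGlobalFields
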